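import Pool.Agent.Lib.MP_9f7b43_nt.Roots

/-!
# MP_9f7b43_nt, part D: sizes of `Θ(α, U)` as `U → 0` and as `U → ∞`
-/

namespace C31

open Filter Topology

/-- The form `u² - u v + v²` at the image of a plane point. -/
def NX {R : Type*} [CommRing R] (a b r : R) : R :=
  cu a b r ^ 2 - cu a b r * cv a b r + cv a b r ^ 2

theorem map_NX {R S : Type*} [CommRing R] [CommRing S] (φ : R →+* S) (a b r : R) :
    φ (NX a b r) = NX (φ a) (φ b) (φ r) := by
  simp [NX, map_cu, map_cv]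

theorem ev_bdd (f : ℂ → ℂ) (hf : Continuous f) : ∀ᶠ V in 𝓝 (0 : ℂ), ‖f V‖ ≤ ‖f 0‖ + 1 :=
  (hf.norm.tendsto 0).eventually_le_const (by linarith)

theorem ev_low (f : ℂ → ℂ) (hf : Continuous f) (h0 : f 0 ≠ 0) :
    ∀ᶠ V in 𝓝 (0 : ℂ), ‖f 0‖ / 2 ≤ ‖f V‖ :=
  (hf.norm.tendsto 0).eventually_const_le (half_lt_self (norm_pos_iff.mpr h0))

/-- Sizes near `U = 0` (the real place). -/
theorem asym0 (α : ℂ) (h1 : NX (qa α 0) (qb α 0) (qr α 0) ≠ 0) :
    ∃ C : ℝ, 1 ≤ C ∧ ∀ᶠ U in 𝓝 (0 : ℂ), ‖Theta α U 0‖ ≤ C * ‖U‖ ∧ ‖Theta α U 1‖ ≤ C * ‖U‖ ∧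
      ‖Theta α U 3‖ ≤ C * ‖U‖ ∧ 1 ≤ C * ‖Theta α U 2‖ ∧ ‖Theta α U 2‖ ≤ C := by
  set m : ℂ := -3 * qn α ^ 3 * qh α ^ 3 with hm
  let g0 : ℂ → ℂ := fun U => m * cu (qa α U) (qb α U) (qr α U)
  let g1 : ℂ → ℂ := fun U => m * cv (qa α U) (qb α U) (qr α U)
  let g3 : ℂ → ℂ := fun U => m * (m * U)
  let g2 : ℂ → ℂ := fun U => Theta α U 2
  have c0 : Continuous g0 := by
    simp only [g0, cu, qa, qb, qr]; fun_prop
  have c1 : Continuous g1 := by
    simp only [g1, cv, qa, qb, qr]; fun_prop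
  have c3 : Continuous g3 := by
    simp only [g3]; fun_prop
  have c2 : Continuous g2 := by
    simp only [g2, Theta, sx, cu, cv, cz, cw, qa, qb, qr, Matrix.cons_val]; fun_prop
  have e0 : ∀ U, Theta α U 0 = g0 U * U := by
    intro U
    simp only [Theta, sx, Matrix.cons_val_zero, cw_q, g0]; ring
  have e1 : ∀ U, Theta α U 1 = g1 U * U := by
    intro U
    simp only [Theta, sx, Matrix.cons_val_one, Matrix.cons_val_zero, cw_q, g1]; ring
  have e3 : ∀ U, Theta α U 3 = g3 U * U := by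
    intro U
    simp only [Theta, sx, Matrix.cons_val, cw_q, g3]; ring
  have h2 : g2 0 ≠ 0 := by
    have : g2 0 = -NX (qa α 0) (qb α 0) (qr α 0) := by
      simp only [g2, Theta, sx, Matrix.cons_val, cw_q, NX]; ring
    rw [this]; exact neg_ne_zero.mpr h1
  have p2 : 0 < ‖g2 0‖ := norm_pos_iff.mpr h2
  refine ⟨max (max (‖g0 0‖ + 1) (‖g1 0‖ + 1)) (max (‖g3 0‖ + 1) (max (‖g2 0‖ + 1)
    (2 / ‖g2 0‖))), ?_, ?_⟩
  · refine le_max_of_le_left (le_max_of_le_left ?_)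
    linarith [norm_nonneg (g0 0)]
  filter_upwards [ev_bdd g0 c0, ev_bdd g1 c1, ev_bdd g3 c3, ev_bdd g2 c2, ev_low g2 c2 h2]
    with U b0 b1 b3 b2 l2
  refine ⟨?_, ?_, ?_, ?_, ?_⟩
  · rw [e0, norm_mul]
    exact mul_le_mul_of_nonneg_right (b0.trans (le_max_of_le_left (le_max_left _ _)))
      (norm_nonneg _)
  · rw [e1, norm_mul]
    exact mul_le_mul_of_nonneg_right (b1.trans (le_max_of_le_left (le_max_right _ _)))
      (norm_nonneg _)
  · rw [e3, norm_mul]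
    exact mul_le_mul_of_nonneg_right (b3.trans (le_max_of_le_right (le_max_left _ _)))
      (norm_nonneg _)
  · have h4 : (2 / ‖g2 0‖) * (‖g2 0‖ / 2) = 1 := by field_simp
    calc (1 : ℝ) = (2 / ‖g2 0‖) * (‖g2 0‖ / 2) := h4.symm
      _ ≤ _ := mul_le_mul (le_max_of_le_right (le_max_of_le_right (le_max_right _ _))) l2
        (by positivity) (by positivity)
  · exact b2.trans (le_max_of_le_right (le_max_of_le_right (le_max_left _ _)))

/-- The sextics are homogeneous of degree six. -/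
theorem sx_homog {R : Type*} [CommRing R] (t a b r : R) (k : Fin 4) :
    sx (t * a) (t * b) (t * r) k = t ^ 6 * sx a b r k := by
  fin_cases k <;>
    simp only [Fin.zero_eta, Fin.mk_one, Fin.reduceFinMk, sx, cu, cv, cz, cw,
      Matrix.cons_val_zero, Matrix.cons_val_one, Matrix.cons_val] <;> ring

/-- The point `V q1 + q2`. -/
def pa {R : Type*} [CommRing R] (α V : R) : R :=
  V * (qn α ^ 2 * (-4 * α ^ 2 + 10 * α - 1)) + qn α * α
def pb {R : Type*} [CommRing R] (α V : R) : R :=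
  V * (qn α ^ 2 * (α ^ 2 + 8 * α - 5)) + qn α
def pr {R : Type*} [CommRing R] (α V : R) : R := V * (-3 * qg α * qh α) + qh α

theorem cw_p {R : Type*} [CommRing R] (α V : R) :
    cw (pa α V) (pb α V) (pr α V) = -3 * qn α ^ 3 * qh α ^ 3 * V ^ 2 := by
  unfold cw pa pb pr qn qh qg; ring

theorem Theta_eq (α U : ℂ) (hU : U ≠ 0) (k : Fin 4) :
    Theta α U k = U ^ 6 * sx (pa α U⁻¹) (pb α U⁻¹) (pr α U⁻¹) k := by
  rw [← sx_homog, Theta]
  have h1 : U * pa α U⁻¹ = qa α U := by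
    unfold pa qa; field_simp
  have h2 : U * pb α U⁻¹ = qb α U := by
    unfold pb qb; field_simp
  have h3 : U * pr α U⁻¹ = qr α U := by
    unfold pr qr; field_simp
  rw [h1, h2, h3]

/-- Sizes at the other end, in the coordinate `V = U⁻¹`. -/
theorem asym1 (α : ℂ) (h1 : NX (pa α 0) (pb α 0) (pr α 0) ≠ 0) :
    ∃ C : ℝ, 1 ≤ C ∧ ∀ᶠ V in 𝓝 (0 : ℂ),
      ‖sx (pa α V) (pb α V) (pr α V) 0‖ ≤ C * ‖V‖ ^ 2 ∧
      ‖sx (pa α V) (pb α V) (pr α V) 1‖ ≤ C * ‖V‖ ^ 2 ∧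
      ‖sx (pa α V) (pb α V) (pr α V) 3‖ ≤ C * ‖V‖ ^ 2 ∧
      1 ≤ C * ‖sx (pa α V) (pb α V) (pr α V) 2‖ ∧
      ‖sx (pa α V) (pb α V) (pr α V) 2‖ ≤ C := by
  set m : ℂ := -3 * qn α ^ 3 * qh α ^ 3 with hm
  let g0 : ℂ → ℂ := fun V => m * cu (pa α V) (pb α V) (pr α V)
  let g1 : ℂ → ℂ := fun V => m * cv (pa α V) (pb α V) (pr α V)
  let g3 : ℂ → ℂ := fun V => m * (m * V ^ 2)
  let g2 : ℂ → ℂ := fun V => sx (pa α V) (pb α V) (pr α V) 2
  have c0 : Continuous g0 := by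
    simp only [g0, cu, pa, pb, pr]; fun_prop
  have c1 : Continuous g1 := by
    simp only [g1, cv, pa, pb, pr]; fun_prop
  have c3 : Continuous g3 := by
    simp only [g3]; fun_prop
  have c2 : Continuous g2 := by
    simp only [g2, sx, cu, cv, cz, cw, pa, pb, pr, Matrix.cons_val]; fun_prop
  have e0 : ∀ V, sx (pa α V) (pb α V) (pr α V) 0 = g0 V * V ^ 2 := by
    intro V
    simp only [sx, Matrix.cons_val_zero, cw_p, g0]; ring
  have e1 : ∀ V, sx (pa α V) (pb α V) (pr α V) 1 = g1 V * V ^ 2 := by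
    intro V
    simp only [sx, Matrix.cons_val_one, Matrix.cons_val_zero, cw_p, g1]; ring
  have e3 : ∀ V, sx (pa α V) (pb α V) (pr α V) 3 = g3 V * V ^ 2 := by
    intro V
    simp only [sx, Matrix.cons_val, cw_p, g3]; ring
  have h2 : g2 0 ≠ 0 := by
    have : g2 0 = -NX (pa α 0) (pb α 0) (pr α 0) := by
      simp only [g2, sx, Matrix.cons_val, cw_p, NX]; ring
    rw [this]; exact neg_ne_zero.mpr h1
  have p2 : 0 < ‖g2 0‖ := norm_pos_iff.mpr h2
  refine ⟨max (max (‖g0 0‖ + 1) (‖g1 0‖ + 1)) (max (‖g3 0‖ + 1) (max (‖g2 0‖ + 1)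
    (2 / ‖g2 0‖))), ?_, ?_⟩
  · refine le_max_of_le_left (le_max_of_le_left ?_)
    linarith [norm_nonneg (g0 0)]
  filter_upwards [ev_bdd g0 c0, ev_bdd g1 c1, ev_bdd g3 c3, ev_bdd g2 c2, ev_low g2 c2 h2]
    with V b0 b1 b3 b2 l2
  refine ⟨?_, ?_, ?_, ?_, ?_⟩
  · rw [e0, norm_mul, norm_pow]
    exact mul_le_mul_of_nonneg_right (b0.trans (le_max_of_le_left (le_max_left _ _)))
      (by positivity)
  · rw [e1, norm_mul, norm_pow]
    exact mul_le_mul_of_nonneg_right (b1.trans (le_max_of_le_left (le_max_right _ _)))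
      (by positivity)
  · rw [e3, norm_mul, norm_pow]
    exact mul_le_mul_of_nonneg_right (b3.trans (le_max_of_le_right (le_max_left _ _)))
      (by positivity)
  · have h4 : (2 / ‖g2 0‖) * (‖g2 0‖ / 2) = 1 := by field_simp
    calc (1 : ℝ) = (2 / ‖g2 0‖) * (‖g2 0‖ / 2) := h4.symm
      _ ≤ _ := mul_le_mul (le_max_of_le_right (le_max_of_le_right (le_max_right _ _))) l2
        (by positivity) (by positivity)
  · exact b2.trans (le_max_of_le_right (le_max_of_le_right (le_max_left _ _)))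

end C31
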