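import Pool.Agent.Lib.MP_9f7b43_nt.Data

/-!
# MP_9f7b43_nt, part D: the density lemma

A polynomial `P(α, U)` over `ℚ` in six variables such that, for all integral `α, μ ∈ ℤ[ρ]`
outside the zero set of a fixed nonzero polynomial, `P(α, μ ρ^{-N}) = 0` for all large `N`, is zero.
-/

namespace C31

open MvPolynomial

/-- Multiplication by `ρ⁻¹` on the second block of variables, on points. -/
def tw {R : Type*} [CommRing R] (x : Fin 2 × Fin 3 → R) : Fin 2 × Fin 3 → R :=
  fun i => if i.1 = 0 then x i else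
    (![x (1, 1) - x (1, 0), x (1, 2), x (1, 0)] : Fin 3 → R) i.2

/-- The substitution corresponding to `tw`. -/
noncomputable def sub1 : MvPolynomial (Fin 2 × Fin 3) ℚ →ₐ[ℚ] MvPolynomial (Fin 2 × Fin 3) ℚ :=
  aeval (tw X)

noncomputable def sub2 : MvPolynomial (Fin 2 × Fin 3) ℚ →ₐ[ℚ] MvPolynomial (Fin 2 × Fin 3) ℚ :=
  aeval fun i => if i.1 = 0 then X i else
    (![X (1, 2), X (1, 0) + X (1, 2), X (1, 1)] : Fin 3 → MvPolynomial (Fin 2 × Fin 3) ℚ) i.2

theorem sub2_sub1 (P : MvPolynomial (Fin 2 × Fin 3) ℚ) : sub2 (sub1 P) = P := by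
  have h : sub2.comp sub1 = AlgHom.id ℚ _ := by
    apply MvPolynomial.algHom_ext
    intro i
    obtain ⟨i1, i2⟩ := i
    fin_cases i1 <;> fin_cases i2 <;> simp [sub1, sub2, tw]
  exact congrArg (fun f => f P) h

theorem sub1_injective : Function.Injective sub1 :=
  Function.LeftInverse.injective sub2_sub1

theorem eval_sub1 (x : Fin 2 × Fin 3 → ℚ) (P : MvPolynomial (Fin 2 × Fin 3) ℚ) :
    eval x (sub1 P) = eval (tw x) P := by
  have h : (aeval x : MvPolynomial (Fin 2 × Fin 3) ℚ →ₐ[ℚ] ℚ).comp sub1 = aeval (tw x) := by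
    apply MvPolynomial.algHom_ext
    intro i
    obtain ⟨i1, i2⟩ := i
    fin_cases i1 <;> fin_cases i2 <;> simp [sub1, tw]
  have h2 := congrArg (fun f => f P) h
  simpa [MvPolynomial.aeval_eq_eval] using h2

theorem eval_sub1_iter (N : ℕ) (x : Fin 2 × Fin 3 → ℚ) (P : MvPolynomial (Fin 2 × Fin 3) ℚ) :
    eval x (sub1^[N] P) = eval (tw^[N] x) P := by
  induction N generalizing P x with
  | zero => rfl
  | succ N ih =>
    rw [Function.iterate_succ_apply', eval_sub1, ih, ← Function.iterate_succ_apply]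

theorem sub1_degree (P : MvPolynomial (Fin 2 × Fin 3) ℚ) (D : ℕ) (h : P.totalDegree ≤ D) :
    (sub1 P).totalDegree ≤ D := by
  have hX : ∀ i, (tw (X : Fin 2 × Fin 3 → MvPolynomial (Fin 2 × Fin 3) ℚ) i).IsHomogeneous 1 := by
    intro i
    obtain ⟨i1, i2⟩ := i
    fin_cases i1 <;> fin_cases i2 <;> simp [tw, isHomogeneous_X, IsHomogeneous.sub]
  rw [← sum_homogeneousComponent P, map_sum]
  refine (totalDegree_finsetSum _ _).trans ?_
  apply Finset.sup_le
  intro d hd
  have h1 : (sub1 (homogeneousComponent d P)).IsHomogeneous (1 * d) :=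
    (homogeneousComponent_isHomogeneous d P).aeval _ hX
  have h2 := h1.totalDegree_le
  have h3 := Finset.mem_range.mp hd
  omega

/-- Vanishing for large `N` implies vanishing for all `N`. -/
theorem vanish_all (x : Fin 2 × Fin 3 → ℚ) (P : MvPolynomial (Fin 2 × Fin 3) ℚ) (N0 : ℕ)
    (h : ∀ N ≥ N0, eval (tw^[N] x) P = 0) : eval x P = 0 := by
  set D := P.totalDegree with hD
  let W := restrictTotalDegree (Fin 2 × Fin 3) ℚ D
  -- the submodules of polynomials of bounded degree which vanish from `k` on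
  let S : ℕ → Submodule ℚ W := fun k =>
    { carrier := {Q | ∀ N ≥ k, eval (tw^[N] x) (Q : MvPolynomial (Fin 2 × Fin 3) ℚ) = 0}
      add_mem' := by
        intro a b ha hb N hN
        simp [ha N hN, hb N hN]
      zero_mem' := by
        intro N _
        simp
      smul_mem' := by
        intro c a ha N hN
        simp [ha N hN, smul_eval] }
  have hmono : ∀ k, S k ≤ S (k + 1) := by
    intro k Q hQ N hN
    exact hQ N (by omega)
  let f : W →ₗ[ℚ] W := (sub1.toLinearMap.comp W.subtype).codRestrict W (by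
    intro Q
    rw [mem_restrictTotalDegree]
    exact sub1_degree _ _ ((mem_restrictTotalDegree _ _ _).mp Q.2))
  have hf : Function.Injective f := by
    intro a b hab
    have h1 : sub1 (a : MvPolynomial (Fin 2 × Fin 3) ℚ) = sub1 (b : MvPolynomial _ ℚ) :=
      congrArg Subtype.val hab
    exact Subtype.ext (sub1_injective h1)
  have hmap : ∀ k, (S (k + 1)).map f ≤ S k := by
    intro k Q hQ
    obtain ⟨Q', hQ', rfl⟩ := hQ
    intro N hN
    change eval (tw^[N] x) (sub1 (Q' : MvPolynomial (Fin 2 × Fin 3) ℚ)) = 0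
    rw [eval_sub1, ← Function.iterate_succ_apply' tw]
    exact hQ' (N + 1) (by omega)
  have hdim : ∀ k, S k = S (k + 1) := by
    intro k
    apply Submodule.eq_of_le_of_finrank_le (hmono k)
    calc Module.finrank ℚ (S (k + 1)) = Module.finrank ℚ ((S (k + 1)).map f) :=
          (Submodule.equivMapOfInjective f hf (S (k + 1))).finrank_eq
      _ ≤ Module.finrank ℚ (S k) := Submodule.finrank_mono (hmap k)
  have hall : ∀ k, S k = S 0 := by
    intro k
    induction k with
    | zero => rfl
    | succ k ih => rw [← hdim k, ih]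
  have hP : (⟨P, (mem_restrictTotalDegree _ _ _).mpr hD.ge⟩ : W) ∈ S N0 := h
  rw [hall N0] at hP
  exact hP 0 le_rfl

theorem dens (P c : MvPolynomial (Fin 2 × Fin 3) ℚ) (hc : c ≠ 0)
    (h : ∀ x : Fin 2 × Fin 3 → ℤ, eval (fun i => (x i : ℚ)) c ≠ 0 →
      ∃ N0 : ℕ, ∀ N ≥ N0, eval (tw^[N] fun i => (x i : ℚ)) P = 0) : P = 0 := by
  have h0 : P * c = 0 := by
    apply MvPolynomial.funext_set (fun _ => Set.range (Int.cast : ℤ → ℚ))
    · intro i
      exact Set.infinite_range_of_injective Int.cast_injective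
    · intro x hx
      have hx' : ∀ i, ∃ n : ℤ, (n : ℚ) = x i := by
        intro i
        exact hx i (Set.mem_univ i)
      choose y hy using hx'
      have hxy : x = fun i => (y i : ℚ) := by
        funext i; exact (hy i).symm
      rw [hxy, map_mul, map_zero]
      by_cases hc0 : eval (fun i => (y i : ℚ)) c = 0
      · rw [hc0, mul_zero]
      · obtain ⟨N0, hN⟩ := h y hc0
        rw [vanish_all _ P N0 hN, zero_mul]
  rcases mul_eq_zero.mp h0 with h1 | h1
  · exact h1
  · exact absurd h1 hc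

end C31
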