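import Pool.Agent.Lib.MP_9f7b43_nt.D.Asym

/-!
# MP_9f7b43_nt, part D: the sizes of `Θ(α, μ ρ^{-N})` at the three places
-/

namespace C31

open Filter Topology

/-- The product of all quantities which have to be nonzero. -/
def adm {R : Type*} [CommRing R] (α μ : R) : R :=
  μ * qn α * qh α * NX (qa α 0) (qb α 0) (qr α 0) * NX (pa α 0) (pb α 0) (pr α 0)

theorem map_adm {R S : Type*} [CommRing R] [CommRing S] (φ : R →+* S) (α μ : R) :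
    φ (adm α μ) = adm (φ α) (φ μ) := by
  simp only [adm, map_mul, map_NX, qa, qb, qr, pa, pb, pr, qn, qh, qg, map_add, map_sub, map_pow,
    map_neg, map_ofNat, map_one, map_zero]

theorem norm_rt_sq (j : Fin 3) (hj : j ≠ 0) : ‖rt j‖ ^ 2 = r1⁻¹ := by
  fin_cases j
  · exact absurd rfl hj
  · exact normSq_r2
  · simpa using normSq_r2

theorem norm_rt_zero : ‖rt 0‖ = r1 := by
  rw [rt_zero, Complex.norm_real, Real.norm_eq_abs, abs_of_pos r1_pos]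

/-- The value of `U = μ ρ^{-N}` at the place number `j`. -/
theorem emb_U (μ : Cub ℤ) (N : ℕ) (j : Fin 3) :
    emb (Int.castRingHom ℂ) j (μ * Cub.rhoInv ℤ ^ N) =
      emb (Int.castRingHom ℂ) j μ * ((rt j)⁻¹) ^ N := by
  rw [map_mul, map_pow, emb_rhoInv]

theorem emb_Theta (α U : Cub ℤ) (j : Fin 3) (k : Fin 4) :
    emb (Int.castRingHom ℂ) j (Theta α U k) =
      Theta (emb (Int.castRingHom ℂ) j α) (emb (Int.castRingHom ℂ) j U) k :=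
  map_Theta _ _ _ _

/-- The real place. -/
theorem est0 (α μ : ℂ) (h1 : NX (qa α 0) (qb α 0) (qr α 0) ≠ 0) :
    ∃ C : ℝ, 1 ≤ C ∧ ∀ᶠ N : ℕ in atTop,
      (∀ k : Fin 4, k ≠ 2 → ‖Theta α (μ * ((rt 0)⁻¹) ^ N) k‖ ≤
        C * (r1⁻¹) ^ N * ‖Theta α (μ * ((rt 0)⁻¹) ^ N) 2‖) ∧
      ‖Theta α (μ * ((rt 0)⁻¹) ^ N) 2‖ ≤ C := by
  obtain ⟨C, hC1, hC⟩ := asym0 α h1
  have hlim : Tendsto (fun N : ℕ => μ * ((rt 0)⁻¹) ^ N) atTop (𝓝 0) := by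
    have h2 : Tendsto (fun N : ℕ => ((rt 0)⁻¹) ^ N) atTop (𝓝 0) := by
      apply tendsto_pow_atTop_nhds_zero_of_norm_lt_one
      rw [norm_inv, norm_rt_zero]
      exact inv_lt_one_of_one_lt₀ one_lt_r1
    simpa using h2.const_mul μ
  refine ⟨C * C * (‖μ‖ + 1), ?_, ?_⟩
  · have := norm_nonneg μ
    nlinarith [mul_le_mul hC1 hC1 zero_le_one (by linarith)]
  filter_upwards [hlim.eventually hC] with N hN
  obtain ⟨b0, b1, b3, l2, b2⟩ := hN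
  have hU : ‖μ * ((rt 0)⁻¹) ^ N‖ = ‖μ‖ * (r1⁻¹) ^ N := by
    rw [norm_mul, norm_pow, norm_inv, norm_rt_zero]
  set z2 : ℝ := ‖Theta α (μ * ((rt 0)⁻¹) ^ N) 2‖ with hz2
  have hr : 0 ≤ (r1⁻¹) ^ N := by
    have := r1_pos
    positivity
  have key : C * ‖μ * ((rt 0)⁻¹) ^ N‖ ≤ C * C * (‖μ‖ + 1) * (r1⁻¹) ^ N * z2 := by
    rw [hU]
    have hμ := norm_nonneg μ
    have h3 : C * (‖μ‖ * (r1⁻¹) ^ N) ≤ C * ((‖μ‖ + 1) * (r1⁻¹) ^ N) := by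
      apply mul_le_mul_of_nonneg_left _ (by linarith)
      exact mul_le_mul_of_nonneg_right (by linarith) hr
    have h4 : 0 ≤ C * ((‖μ‖ + 1) * (r1⁻¹) ^ N) := by positivity
    calc C * (‖μ‖ * (r1⁻¹) ^ N) ≤ C * ((‖μ‖ + 1) * (r1⁻¹) ^ N) * 1 := by rw [mul_one]; exact h3
      _ ≤ C * ((‖μ‖ + 1) * (r1⁻¹) ^ N) * (C * z2) := mul_le_mul_of_nonneg_left l2 h4
      _ = _ := by ring
  refine ⟨?_, ?_⟩
  · intro k hk
    fin_cases k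
    · exact b0.trans key
    · exact b1.trans key
    · exact absurd rfl hk
    · exact b3.trans key
  · refine b2.trans ?_
    have hμ := norm_nonneg μ
    have h5 : C * 1 ≤ C * (C * (‖μ‖ + 1)) := by
      apply mul_le_mul_of_nonneg_left _ (by linarith)
      nlinarith
    linarith

/-- The complex places. -/
theorem est1 (α μ r : ℂ) (hr : ‖r‖ ^ 2 = r1⁻¹) (hμ : μ ≠ 0)
    (h1 : NX (pa α 0) (pb α 0) (pr α 0) ≠ 0) :
    ∃ C : ℝ, 1 ≤ C ∧ ∀ᶠ N : ℕ in atTop,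
      (∀ k : Fin 4, k ≠ 2 → ‖Theta α (μ * (r⁻¹) ^ N) k‖ ≤
        C * (r1⁻¹) ^ N * ‖Theta α (μ * (r⁻¹) ^ N) 2‖) ∧
      ‖Theta α (μ * (r⁻¹) ^ N) 2‖ ≤ C * (r1 ^ 3) ^ N := by
  obtain ⟨C, hC1, hC⟩ := asym1 α h1
  have hrpos : 0 < ‖r‖ := by
    rcases (norm_nonneg r).eq_or_lt with h | h
    · rw [← h] at hr
      have := inv_pos.mpr r1_pos
      norm_num at hr
      exact absurd hr.symm (by simpa using r1_ne_zero)
    · exact h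
  have hr0 : r ≠ 0 := norm_pos_iff.mp hrpos
  have hrlt : ‖r‖ < 1 := by
    have h2 : r1⁻¹ < 1 := inv_lt_one_of_one_lt₀ one_lt_r1
    nlinarith
  have hlim : Tendsto (fun N : ℕ => (μ * (r⁻¹) ^ N)⁻¹) atTop (𝓝 0) := by
    have h2 : Tendsto (fun N : ℕ => r ^ N) atTop (𝓝 0) :=
      tendsto_pow_atTop_nhds_zero_of_norm_lt_one hrlt
    have h3 := h2.const_mul μ⁻¹
    rw [mul_zero] at h3
    refine h3.congr fun N => ?_
    rw [mul_inv, inv_pow, inv_inv]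
  have hμp : 0 < ‖μ‖ := norm_pos_iff.mpr hμ
  refine ⟨C * C * (‖μ‖⁻¹ ^ 2 + 1) * (‖μ‖ ^ 6 + 1), ?_, ?_⟩
  · have a1 : 1 ≤ C * C := by nlinarith
    have a2 : 1 ≤ ‖μ‖⁻¹ ^ 2 + 1 := by have : 0 ≤ ‖μ‖⁻¹ ^ 2 := by positivity
                                      linarith
    have a3 : 1 ≤ ‖μ‖ ^ 6 + 1 := by have : 0 ≤ ‖μ‖ ^ 6 := by positivity
                                    linarith
    exact one_le_mul_of_one_le_of_one_le (one_le_mul_of_one_le_of_one_le a1 a2) a3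
  filter_upwards [hlim.eventually hC] with N hN
  obtain ⟨b0, b1, b3, l2, b2⟩ := hN
  set U : ℂ := μ * (r⁻¹) ^ N with hUdef
  have hU0 : U ≠ 0 := mul_ne_zero hμ (pow_ne_zero _ (inv_ne_zero hr0))
  have hUn : ‖U‖ = ‖μ‖ * (‖r‖⁻¹) ^ N := by
    rw [hUdef, norm_mul, norm_pow, norm_inv]
  have hrN : (‖r‖⁻¹ ^ N) ^ 2 = r1 ^ N := by
    rw [← pow_mul, mul_comm N 2, pow_mul, inv_pow, hr, inv_inv]
  have hV2 : ‖U⁻¹‖ ^ 2 = ‖μ‖⁻¹ ^ 2 * (r1⁻¹) ^ N := by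
    rw [norm_inv, hUn, mul_inv, mul_pow]
    congr 1
    rw [inv_pow, hrN, inv_pow]
  have hU6 : ‖U‖ ^ 6 = ‖μ‖ ^ 6 * (r1 ^ 3) ^ N := by
    rw [hUn, mul_pow]
    congr 1
    have : ((‖r‖⁻¹) ^ N) ^ 6 = (((‖r‖⁻¹) ^ N) ^ 2) ^ 3 := by ring
    rw [this, hrN]
    ring
  set s : Fin 4 → ℂ := sx (pa α U⁻¹) (pb α U⁻¹) (pr α U⁻¹) with hs
  have hT : ∀ k, ‖Theta α U k‖ = ‖U‖ ^ 6 * ‖s k‖ := by
    intro k
    rw [Theta_eq α U hU0 k, norm_mul, norm_pow]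
  have hU6p : 0 ≤ ‖U‖ ^ 6 := by positivity
  have hrp := r1_pos
  have key : ∀ x : ℝ, x ≤ C * ‖U⁻¹‖ ^ 2 →
      ‖U‖ ^ 6 * x ≤ C * C * (‖μ‖⁻¹ ^ 2 + 1) * (‖μ‖ ^ 6 + 1) * (r1⁻¹) ^ N * (‖U‖ ^ 6 * ‖s 2‖) := by
    intro x hx
    rw [hV2] at hx
    have h3 : x ≤ C * ((‖μ‖⁻¹ ^ 2 + 1) * (‖μ‖ ^ 6 + 1) * (r1⁻¹) ^ N) := by
      refine hx.trans (mul_le_mul_of_nonneg_left ?_ (by linarith))
      apply mul_le_mul_of_nonneg_right _ (by positivity)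
      have e1 : 0 ≤ ‖μ‖⁻¹ ^ 2 := by positivity
      have e2 : 0 ≤ ‖μ‖ ^ 6 := by positivity
      nlinarith [mul_nonneg e1 e2]
    have h4 : 0 ≤ C * ((‖μ‖⁻¹ ^ 2 + 1) * (‖μ‖ ^ 6 + 1) * (r1⁻¹) ^ N) := by positivity
    have h5 : x ≤ C * ((‖μ‖⁻¹ ^ 2 + 1) * (‖μ‖ ^ 6 + 1) * (r1⁻¹) ^ N) * (C * ‖s 2‖) :=
      h3.trans (le_mul_of_one_le_right h4 l2)
    calc ‖U‖ ^ 6 * x ≤ ‖U‖ ^ 6 *
          (C * ((‖μ‖⁻¹ ^ 2 + 1) * (‖μ‖ ^ 6 + 1) * (r1⁻¹) ^ N) * (C * ‖s 2‖)) :=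
          mul_le_mul_of_nonneg_left h5 hU6p
      _ = _ := by ring
  refine ⟨?_, ?_⟩
  · intro k hk
    rw [hT, hT]
    fin_cases k
    · exact key _ b0
    · exact key _ b1
    · exact absurd rfl hk
    · exact key _ b3
  · rw [hT, hU6]
    have h6 : ‖μ‖ ^ 6 * (r1 ^ 3) ^ N * ‖s 2‖ ≤ ‖μ‖ ^ 6 * (r1 ^ 3) ^ N * C :=
      mul_le_mul_of_nonneg_left b2 (by positivity)
    refine h6.trans ?_
    have e1 : 0 ≤ ‖μ‖⁻¹ ^ 2 := by positivity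
    have e2 : 0 ≤ ‖μ‖ ^ 6 := by positivity
    have h7 : ‖μ‖ ^ 6 * C ≤ C * C * (‖μ‖⁻¹ ^ 2 + 1) * (‖μ‖ ^ 6 + 1) := by
      have a1 : C ≤ C * C := by nlinarith
      have a2 : ‖μ‖ ^ 6 ≤ (‖μ‖⁻¹ ^ 2 + 1) * (‖μ‖ ^ 6 + 1) := by nlinarith [mul_nonneg e1 e2]
      calc ‖μ‖ ^ 6 * C = C * ‖μ‖ ^ 6 := mul_comm _ _
        _ ≤ (C * C) * ((‖μ‖⁻¹ ^ 2 + 1) * (‖μ‖ ^ 6 + 1)) :=
          mul_le_mul a1 a2 e2 (by positivity)
        _ = _ := by ring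
    calc ‖μ‖ ^ 6 * (r1 ^ 3) ^ N * C = (‖μ‖ ^ 6 * C) * (r1 ^ 3) ^ N := by ring
      _ ≤ _ := mul_le_mul_of_nonneg_right h7 (by positivity)

/-- Part D, main estimate: at each of the three places the point `Θ(α, μ ρ^{-N})` is at distance
`O(r1^{-N})` of `y`, and the product of the sizes is `O(r1^{6N})`. -/
theorem est (α μ : Cub ℤ) (h : adm α μ ≠ 0) :
    ∃ C : ℝ, 1 ≤ C ∧ ∀ᶠ N : ℕ in atTop,
      (∀ j : Fin 3, ∀ k : Fin 4, k ≠ 2 →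
        ‖emb (Int.castRingHom ℂ) j (Theta α (μ * Cub.rhoInv ℤ ^ N) k)‖ ≤
        C * (r1⁻¹) ^ N * ‖emb (Int.castRingHom ℂ) j (Theta α (μ * Cub.rhoInv ℤ ^ N) 2)‖) ∧
      ∏ j : Fin 3, ‖emb (Int.castRingHom ℂ) j (Theta α (μ * Cub.rhoInv ℤ ^ N) 2)‖
        ≤ C * (r1 ^ 6) ^ N := by
  have hj : ∀ j : Fin 3, emb (Int.castRingHom ℂ) j μ ≠ 0 ∧
      NX (qa (emb (Int.castRingHom ℂ) j α) 0) (qb (emb (Int.castRingHom ℂ) j α) 0)
        (qr (emb (Int.castRingHom ℂ) j α) 0) ≠ 0 ∧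
      NX (pa (emb (Int.castRingHom ℂ) j α) 0) (pb (emb (Int.castRingHom ℂ) j α) 0)
        (pr (emb (Int.castRingHom ℂ) j α) 0) ≠ 0 := by
    intro j
    have h2 := emb_int_ne_zero j h
    rw [map_adm, adm] at h2
    refine ⟨?_, ?_, ?_⟩
    · intro h3; rw [h3] at h2; simp at h2
    · intro h3; rw [h3] at h2; simp at h2
    · intro h3; rw [h3] at h2; simp at h2
  obtain ⟨C0, hC0, e0⟩ := est0 (emb (Int.castRingHom ℂ) 0 α) (emb (Int.castRingHom ℂ) 0 μ)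
    (hj 0).2.1
  obtain ⟨C1, hC1, e1⟩ := est1 (emb (Int.castRingHom ℂ) 1 α) (emb (Int.castRingHom ℂ) 1 μ)
    (rt 1) (norm_rt_sq 1 (by decide)) (hj 1).1 (hj 1).2.2
  obtain ⟨C2, hC2, e2⟩ := est1 (emb (Int.castRingHom ℂ) 2 α) (emb (Int.castRingHom ℂ) 2 μ)
    (rt 2) (norm_rt_sq 2 (by decide)) (hj 2).1 (hj 2).2.2
  have hrp := r1_pos
  refine ⟨C0 * C1 * C2, one_le_mul_of_one_le_of_one_le
    (one_le_mul_of_one_le_of_one_le hC0 hC1) hC2, ?_⟩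
  filter_upwards [e0, e1, e2] with N h0 h1 h2
  have p01 : 1 ≤ C0 * C1 := one_le_mul_of_one_le_of_one_le hC0 hC1
  have p02 : 1 ≤ C0 * C2 := one_le_mul_of_one_le_of_one_le hC0 hC2
  have p12 : 1 ≤ C1 * C2 := one_le_mul_of_one_le_of_one_le hC1 hC2
  have hr : 0 ≤ (r1⁻¹) ^ N := by positivity
  refine ⟨?_, ?_⟩
  · intro j k hk
    rw [emb_Theta, emb_Theta, emb_U]
    fin_cases j
    · refine (h0.1 k hk).trans ?_
      apply mul_le_mul_of_nonneg_right _ (norm_nonneg _)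
      apply mul_le_mul_of_nonneg_right _ hr
      nlinarith
    · refine (h1.1 k hk).trans ?_
      apply mul_le_mul_of_nonneg_right _ (norm_nonneg _)
      apply mul_le_mul_of_nonneg_right _ hr
      nlinarith
    · refine (h2.1 k hk).trans ?_
      apply mul_le_mul_of_nonneg_right _ (norm_nonneg _)
      apply mul_le_mul_of_nonneg_right _ hr
      nlinarith
  · rw [Fin.prod_univ_three]
    simp only [emb_Theta, emb_U]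
    have q1 := h0.2
    have q2 := h1.2
    have q3 := h2.2
    have hpow : (r1 ^ 6) ^ N = (r1 ^ 3) ^ N * (r1 ^ 3) ^ N := by
      rw [← mul_pow]; ring
    rw [hpow]
    calc _ ≤ C0 * (C1 * (r1 ^ 3) ^ N) * (C2 * (r1 ^ 3) ^ N) := by
          apply mul_le_mul _ q3 (norm_nonneg _) (by positivity)
          exact mul_le_mul q1 q2 (norm_nonneg _) (by positivity)
      _ = _ := by ring

end C31
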