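import Mathlib

/-!
# MP_9f7b43_nt, part D: choice of the sequence
-/

namespace C31

open Filter Topology

/-- Choice of an injective sequence from a countable family of one parameter families. -/
theorem choose_seq {A S : Type*} [Countable A] [Nonempty A] (x : A → ℕ → S) (d H : S → ℝ)
    (δ : ℝ) (hδ0 : 0 < δ) (hδ1 : δ < 1)
    (h : ∀ a, ∃ C : ℝ, ∀ᶠ N : ℕ in atTop, 0 < d (x a N) ∧ d (x a N) ≤ C * δ ^ N ∧
      0 ≤ H (x a N) ∧ H (x a N) ≤ C * ((δ⁻¹) ^ 6) ^ N) :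
    ∃ y : ℕ → S, Function.Injective y ∧ (∀ i, ∃ a N, y i = x a N) ∧
      Tendsto (fun i => d (y i)) atTop (𝓝 0) ∧
      (∀ γ : ℝ, 6 < γ → BddAbove (Set.range fun i => d (y i) ^ γ * H (y i))) ∧
      ∀ a, ∃ N0 : ℕ, ∀ N ≥ N0, ∃ i, y i = x a N := by
  obtain ⟨e, he⟩ := exists_injective_nat A
  choose C hC using h
  have hC' : ∀ a, ∃ N0 : ℕ, ∀ N ≥ N0, 0 < d (x a N) ∧ d (x a N) ≤ C a * δ ^ N ∧
      0 ≤ H (x a N) ∧ H (x a N) ≤ C a * ((δ⁻¹) ^ 6) ^ N := fun a => eventually_atTop.mp (hC a)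
  choose M hM using hC'
  -- the index set
  let I : Set (A × ℕ) := {p | M p.1 ≤ p.2 ∧ e p.1 ≤ p.2 ∧ C p.1 ≤ p.2}
  let Y : Set S := (fun p : A × ℕ => x p.1 p.2) '' I
  have hI : ∀ a, ∃ N0 : ℕ, ∀ N ≥ N0, (a, N) ∈ I := by
    intro a
    obtain ⟨n, hn⟩ := exists_nat_ge (C a)
    refine ⟨max (M a) (max (e a) n), fun N hN => ⟨?_, ?_, ?_⟩⟩
    · exact (le_max_left _ _).trans hN
    · exact ((le_max_left _ _).trans (le_max_right _ _)).trans hN
    · have : n ≤ N := ((le_max_right _ _).trans (le_max_right _ _)).trans hN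
      exact hn.trans (by exact_mod_cast this)
  have hd : ∀ p ∈ I, 0 < d (x p.1 p.2) ∧ d (x p.1 p.2) ≤ p.2 * δ ^ p.2 ∧
      0 ≤ H (x p.1 p.2) ∧ H (x p.1 p.2) ≤ p.2 * ((δ⁻¹) ^ 6) ^ p.2 := by
    intro p hp
    obtain ⟨h1, h2, h3, h4⟩ := hM p.1 p.2 hp.1
    refine ⟨h1, h2.trans ?_, h3, h4.trans ?_⟩
    · exact mul_le_mul_of_nonneg_right hp.2.2 (by positivity)
    · exact mul_le_mul_of_nonneg_right hp.2.2 (by positivity)
  have hfin : ∀ K : ℕ, {p : A × ℕ | p ∈ I ∧ p.2 ≤ K}.Finite := by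
    intro K
    have hsub : {p : A × ℕ | p ∈ I ∧ p.2 ≤ K} ⊆
        (fun p : A × ℕ => (e p.1, p.2)) ⁻¹' (Set.Iic K ×ˢ Set.Iic K) := by
      intro p hp
      exact ⟨hp.1.2.1.trans hp.2, hp.2⟩
    refine Set.Finite.subset (Set.Finite.preimage ?_ ((Set.finite_Iic K).prod (Set.finite_Iic K)))
      hsub
    intro p _ q _ hpq
    have h1 := congrArg Prod.fst hpq
    have h2 := congrArg Prod.snd hpq
    exact Prod.ext (he h1) h2
  have hlim : Tendsto (fun N : ℕ => (N : ℝ) * δ ^ N) atTop (𝓝 0) :=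
    tendsto_self_mul_const_pow_of_lt_one hδ0.le hδ1
  -- `Y` is infinite
  have hYinf : Y.Infinite := by
    intro hfinY
    obtain ⟨a⟩ := ‹Nonempty A›
    obtain ⟨N0, hN0⟩ := hI a
    have hpos : ∀ s ∈ Y, 0 < d s := by
      rintro s ⟨p, hp, rfl⟩
      exact (hd p hp).1
    have hne : Y.Nonempty := ⟨_, ⟨(a, N0), hN0 N0 le_rfl, rfl⟩⟩
    obtain ⟨s, hs, hmin⟩ := Set.exists_min_image Y d hfinY hne
    have h1 := (hlim.eventually (gt_mem_nhds (hpos s hs)))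
    obtain ⟨N, hN1, hN2⟩ := (h1.and (eventually_ge_atTop N0)).exists
    have h2 := hmin _ ⟨(a, N), hN0 N hN2, rfl⟩
    have h3 := (hd (a, N) (hN0 N hN2)).2.1
    simp only at h2 h3 hN1
    linarith
  have hYc : Y.Countable := (Set.to_countable I).image _
  obtain ⟨eq⟩ : Nonempty (ℕ ≃ Y) := by
    have : Infinite Y := hYinf.to_subtype
    have : Countable Y := hYc.to_subtype
    obtain ⟨den⟩ := nonempty_denumerable Y
    exact ⟨(Denumerable.eqv Y).symm⟩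
  let y : ℕ → S := fun i => (eq i : S)
  have hy : ∀ i, ∃ p ∈ I, x p.1 p.2 = y i := fun i => (eq i).2
  choose p hpI hpy using hy
  have hpinj : Function.Injective p := by
    intro i j hij
    have h1 : y i = y j := by rw [← hpy, ← hpy, hij]
    exact eq.injective (Subtype.ext h1)
  have hNlim : Tendsto (fun i => (p i).2) atTop atTop := by
    rw [tendsto_atTop]
    intro K
    rw [← Nat.cofinite_eq_atTop, eventually_cofinite]
    have : {i | ¬ K ≤ (p i).2} ⊆ p ⁻¹' {q : A × ℕ | q ∈ I ∧ q.2 ≤ K} := by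
      intro i hi
      exact ⟨hpI i, (not_le.mp hi).le⟩
    exact ((hfin K).preimage hpinj.injOn).subset this
  refine ⟨y, ?_, ?_, ?_, ?_, ?_⟩
  · intro i j hij
    exact eq.injective (Subtype.ext hij)
  · intro i
    exact ⟨_, _, (hpy i).symm⟩
  · refine squeeze_zero (fun i => ?_) (fun i => ?_) (hlim.comp hNlim)
    · rw [← hpy]; exact (hd _ (hpI i)).1.le
    · rw [← hpy]; exact (hd _ (hpI i)).2.1
  · intro γ hγ
    -- the real sequence `N ↦ (N δ^N)^γ N δ^(-6N)` tends to zero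
    have hb : Tendsto (fun N : ℕ => ((N : ℝ) * δ ^ N) ^ γ * (N * ((δ⁻¹) ^ 6) ^ N)) atTop
        (𝓝 0) := by
      have hs : δ ^ (γ - 6) < 1 := Real.rpow_lt_one hδ0.le hδ1 (by linarith)
      have hs0 : 0 < δ ^ (γ - 6) := Real.rpow_pos_of_pos hδ0 _
      obtain ⟨k, hk⟩ := exists_nat_ge γ
      have h1 : Tendsto (fun N : ℕ => (N : ℝ) ^ (k + 1) * (δ ^ (γ - 6)) ^ N) atTop (𝓝 0) :=
        tendsto_pow_const_mul_const_pow_of_abs_lt_one (k + 1) (by rwa [abs_of_pos hs0])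
      refine squeeze_zero' (Eventually.of_forall fun N => by positivity) ?_ h1
      filter_upwards [eventually_ge_atTop 1] with N hN
      have hN' : (1 : ℝ) ≤ N := by exact_mod_cast hN
      have e1 : ((N : ℝ) * δ ^ N) ^ γ = (N : ℝ) ^ γ * (δ ^ N) ^ γ :=
        Real.mul_rpow (by positivity) (by positivity)
      have e2 : (δ ^ N) ^ γ = (δ ^ γ) ^ N := by
        rw [← Real.rpow_natCast, ← Real.rpow_natCast, ← Real.rpow_mul hδ0.le,
          ← Real.rpow_mul hδ0.le, mul_comm]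
      have e3 : (δ ^ γ) ^ N * ((δ⁻¹) ^ 6) ^ N = (δ ^ (γ - 6)) ^ N := by
        rw [← mul_pow]
        congr 1
        rw [Real.rpow_sub hδ0, inv_pow]
        have : δ ^ (6 : ℝ) = δ ^ 6 := by
          exact_mod_cast Real.rpow_natCast δ 6
        rw [this]
        rfl
      have e4 : (N : ℝ) ^ γ ≤ (N : ℝ) ^ k := by
        rw [← Real.rpow_natCast]
        exact Real.rpow_le_rpow_of_exponent_le hN' hk
      calc ((N : ℝ) * δ ^ N) ^ γ * (N * ((δ⁻¹) ^ 6) ^ N)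
          = ((N : ℝ) ^ γ * N) * ((δ ^ γ) ^ N * ((δ⁻¹) ^ 6) ^ N) := by rw [e1, e2]; ring
        _ = ((N : ℝ) ^ γ * N) * (δ ^ (γ - 6)) ^ N := by rw [e3]
        _ ≤ ((N : ℝ) ^ k * N) * (δ ^ (γ - 6)) ^ N := by
          apply mul_le_mul_of_nonneg_right _ (by positivity)
          exact mul_le_mul_of_nonneg_right e4 (by positivity)
        _ = _ := by ring
    obtain ⟨B, hB⟩ := hb.bddAbove_range
    refine ⟨B, ?_⟩
    rintro _ ⟨i, rfl⟩
    obtain ⟨h1, h2, h3, h4⟩ := hd _ (hpI i)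
    rw [hpy] at h1 h2 h3 h4
    have h5 : d (y i) ^ γ ≤ (((p i).2 : ℝ) * δ ^ (p i).2) ^ γ :=
      Real.rpow_le_rpow h1.le h2 (by linarith)
    calc d (y i) ^ γ * H (y i) ≤ (((p i).2 : ℝ) * δ ^ (p i).2) ^ γ *
          ((p i).2 * ((δ⁻¹) ^ 6) ^ (p i).2) := by
          apply mul_le_mul h5 h4 h3 (by positivity)
      _ ≤ B := hB ⟨(p i).2, rfl⟩
  · intro a
    obtain ⟨N0, hN0⟩ := hI a
    refine ⟨N0, fun N hN => ?_⟩
    have hmem : x a N ∈ Y := ⟨(a, N), hN0 N hN, rfl⟩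
    refine ⟨eq.symm ⟨x a N, hmem⟩, ?_⟩
    simp [y]

end C31
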