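import Pool.Agent.Lib.MP_9f7b43_nt.Statement
import Pool.Agent.Lib.MP_9f7b43_nt.G.Pts
import Pool.Agent.Lib.MP_9f7b43_nt.D.Est
import Pool.Agent.Lib.MP_9f7b43_nt.D.Dens
import Pool.Agent.Lib.MP_9f7b43_nt.D.Seq

/-!
# MP_9f7b43_nt, part D: the Zariski dense sequence with approximation constant at most `6`
-/

namespace MP9f7b43.D

open MvPolynomial C31 Filter Topology

/-- The coordinates `x_J(z)` for `z` with coordinates in `ℤ[ρ]`, as rational numbers. -/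
def xQ (z : Fin 4 → Cub ℤ) : Idx → ℚ := xJ fun k => Cub.map (Int.castRingHom ℚ) (z k)

/-- Upper bounds for heights and distances (proved in part B). -/
def UpStmt : Prop :=
  ∃ C : ℝ, 1 ≤ C ∧ ∀ (z : Fin 4 → Cub ℤ) (h : xQ z ≠ 0) (η : ℝ), 0 ≤ η → η ≤ 1 →
    (∀ j : Fin 3, ∀ k : Fin 4, k ≠ 2 →
      ‖emb (Int.castRingHom ℂ) j (z k)‖ ≤ η * ‖emb (Int.castRingHom ℂ) j (z 2)‖) →
    chordal PX (Projectivization.mk ℚ _ h) ≤ C * η ∧
      (Projectivization.mk ℚ _ h).mulHeight ≤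
        C * ∏ j : Fin 3, ‖emb (Int.castRingHom ℂ) j (z 2)‖

theorem pol_diag {R : Type*} [CommRing R] (a : Cub R) : pol a a a = 6 * Cub.nm a := by
  simp only [pol, Cub.tr, Cub.nm, Cub.mul_a0, Cub.mul_a1, Cub.mul_a2]
  ring

theorem map_nm {R S : Type*} [CommRing R] [CommRing S] (φ : R →+* S) (a : Cub R) :
    φ (Cub.nm a) = Cub.nm (Cub.map φ a) := by
  simp [Cub.nm, map_ofNat]

theorem xQ_diag (z : Fin 4 → Cub ℤ) (k : Fin 4) :
    xQ z (diagIdx k) = ((6 * Cub.nm (z k) : ℤ) : ℚ) := by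
  have h := map_nm (Int.castRingHom ℚ) (z k)
  simp only [eq_intCast] at h
  simp only [xQ, xJ, diagIdx, Fin.val_zero, pow_zero, one_mul, pol_diag]
  push_cast
  rw [h]

theorem nm_ne_zero {x : Cub ℤ} (hx : x ≠ 0) : Cub.nm x ≠ 0 := by
  intro h
  have h1 := emb_prod (Int.castRingHom ℂ) x
  rw [h, map_zero] at h1
  have h2 := mul_ne_zero (mul_ne_zero (emb_int_ne_zero 0 hx) (emb_int_ne_zero 1 hx))
    (emb_int_ne_zero 2 hx)
  exact h2 h1

theorem nm_zero : Cub.nm (0 : Cub ℤ) = 0 := by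
  simp [Cub.nm]

/-- The parameters of the sequence. -/
abbrev Par : Type := {p : Cub ℤ × Cub ℤ // Cub.nm (adm p.1 p.2) ≠ 0}

theorem Par.adm_ne (p : Par) : adm p.1.1 p.1.2 ≠ 0 := by
  intro h
  exact p.2 (by rw [h, nm_zero])

instance : Countable (Cub ℤ) := by
  have : Function.Injective (fun x : Cub ℤ => (x.a0, x.a1, x.a2)) := by
    intro x y h
    simp only [Prod.mk.injEq] at h
    exact Cub.ext h.1 h.2.1 h.2.2
  exact this.countable

instance : Nonempty Par := by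
  refine ⟨⟨(0, 1), ?_⟩⟩
  have h : adm (0 : Cub ℤ) 1 = Cub.C (adm (0 : ℤ) 1) := by
    rw [map_adm, map_zero, map_one]
  simp only [h]
  have h2 : adm (0 : ℤ) 1 ≠ 0 := by
    norm_num [adm, NX, qa, qb, qr, pa, pb, pr, qn, qh, qg, cu, cv]
  have h3 : Cub.nm (Cub.C (adm (0 : ℤ) 1)) = (adm (0 : ℤ) 1) ^ 3 := by
    simp [Cub.nm]
  rw [h3]
  exact pow_ne_zero 3 h2

/-- The coordinates of the points. -/
def zPt (p : Par) (N : ℕ) : Fin 4 → Cub ℤ := Theta p.1.1 (p.1.2 * Cub.rhoInv ℤ ^ N)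

theorem Theta_three {R : Type*} [CommRing R] (α U : R) :
    Theta α U 3 = (-3 * qn α ^ 3 * qh α ^ 3 * U) ^ 2 := by
  rw [← cw_q]
  simp [Theta, sx]

theorem zPt_three_ne (p : Par) (N : ℕ) : zPt p N 3 ≠ 0 := by
  intro h
  have h1 := congrArg (emb (Int.castRingHom ℂ) 0) h
  rw [map_zero, zPt, emb_Theta, emb_U, Theta_three] at h1
  have h2 := emb_int_ne_zero 0 p.adm_ne
  rw [map_adm, adm] at h2
  have hU : ((rt 0)⁻¹) ^ N ≠ 0 := pow_ne_zero _ (inv_ne_zero (rt_ne_zero 0))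
  have h3 : emb (Int.castRingHom ℂ) 0 p.1.2 ≠ 0 := by
    intro h3; rw [h3] at h2; simp at h2
  have h4 : qn (emb (Int.castRingHom ℂ) 0 p.1.1) ≠ 0 := by
    intro h4; rw [h4] at h2; simp at h2
  have h5 : qh (emb (Int.castRingHom ℂ) 0 p.1.1) ≠ 0 := by
    intro h5; rw [h5] at h2; simp at h2
  have h6 := pow_ne_zero 2 (mul_ne_zero (mul_ne_zero (mul_ne_zero
    (by norm_num : (-3 : ℂ) ≠ 0) (pow_ne_zero 3 h4)) (pow_ne_zero 3 h5)) (mul_ne_zero h3 hU))
  exact h6 h1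

theorem xQ_zPt_ne (p : Par) (N : ℕ) : xQ (zPt p N) (diagIdx 3) ≠ 0 := by
  rw [xQ_diag]
  have := nm_ne_zero (zPt_three_ne p N)
  exact_mod_cast mul_ne_zero (by norm_num : (6 : ℤ) ≠ 0) this

theorem xQ_zPt (p : Par) (N : ℕ) : xQ (zPt p N) ≠ 0 := by
  intro h
  exact xQ_zPt_ne p N (by rw [h]; rfl)

/-- The points. -/
noncomputable def xPt (p : Par) (N : ℕ) : Projectivization ℚ (Idx → ℚ) :=
  Projectivization.mk ℚ (xQ (zPt p N)) (xQ_zPt p N)

theorem PV_diag3 : PV (diagIdx 3) = 0 := by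
  simp [PV, xJ, diagIdx, yPt, pol, Cub.tr]

theorem chordal_pos (x : Projectivization ℚ (Idx → ℚ)) (hx : x.rep (diagIdx 3) ≠ 0) :
    0 < chordal PX x := by
  obtain ⟨a, ha⟩ := Projectivization.exists_smul_eq_mk_rep ℚ PV PV_ne_zero
  have h2 : PX.rep (diagIdx 2) ≠ 0 := by
    have : PX.rep = a • PV := ha.symm
    rw [this]
    simp only [Pi.smul_apply, PV_diag]
    have := a.ne_zero
    intro h
    rw [Units.smul_def, smul_eq_mul] at h
    rcases mul_eq_zero.mp h with h | h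
    · exact this h
    · norm_num at h
  have h3 : PX.rep (diagIdx 3) = 0 := by
    have : PX.rep = a • PV := ha.symm
    rw [this]
    simp only [Pi.smul_apply, PV_diag3, smul_zero]
  unfold chordal
  have hsup : ∀ (f : Idx → ℝ) (i : Idx), |f i| ≤ ⨆ i, |f i| := fun f i =>
    le_ciSup (f := fun i => |f i|) (Set.finite_range _).bddAbove i
  apply div_pos
  · refine lt_of_lt_of_le ?_ (le_ciSup
      (f := fun p : Idx × Idx => |((PX.rep p.1 * x.rep p.2 - PX.rep p.2 * x.rep p.1 : ℚ) : ℝ)|)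
      (Set.finite_range _).bddAbove (diagIdx 2, diagIdx 3))
    rw [abs_pos]
    simp only [h3, zero_mul, sub_zero]
    exact_mod_cast mul_ne_zero h2 hx
  · apply mul_pos
    · refine lt_of_lt_of_le ?_ (hsup (fun i => (PX.rep i : ℝ)) (diagIdx 2))
      rw [abs_pos]; exact_mod_cast h2
    · refine lt_of_lt_of_le ?_ (hsup (fun i => (x.rep i : ℝ)) (diagIdx 3))
      rw [abs_pos]; exact_mod_cast hx

theorem rep_mk (v : Idx → ℚ) (hv : v ≠ 0) :
    ∃ c : ℚ, c ≠ 0 ∧ (Projectivization.mk ℚ v hv).rep = fun J => c * v J := by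
  obtain ⟨a, ha⟩ := Projectivization.exists_smul_eq_mk_rep ℚ v hv
  refine ⟨a, a.ne_zero, ?_⟩
  rw [← ha]
  rfl

theorem xQ_Theta (α U : Cub ℤ) :
    xQ (Theta α U) = xJ (Theta (Cub.map (Int.castRingHom ℚ) α) (Cub.map (Int.castRingHom ℚ) U)) := by
  unfold xQ
  congr 1
  funext k
  exact map_Theta _ _ _ _

theorem xPt_mem (p : Par) (N : ℕ) : xPt p N ∈ XI.points := by
  intro g hg
  obtain ⟨c, _, hc⟩ := rep_mk (xQ (zPt p N)) (xQ_zPt p N)
  change eval (Projectivization.mk ℚ (xQ (zPt p N)) (xQ_zPt p N)).rep g = 0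
  rw [hc]
  have h := aeval_xJ_Theta_eq_zero (A := ℚ) (Cub.map (Int.castRingHom ℚ) p.1.1)
    (Cub.map (Int.castRingHom ℚ) (p.1.2 * Cub.rhoInv ℤ ^ N)) c g hg
  rw [← xQ_Theta] at h
  rw [← MvPolynomial.aeval_eq_eval]
  exact h

theorem tw_parPt (α U : Cub ℚ) : tw (parPt α U) = parPt α (U * Cub.rhoInv ℚ) := by
  funext i
  obtain ⟨i1, i2⟩ := i
  fin_cases i1 <;> fin_cases i2 <;> simp [tw, parPt]
  ring

theorem tw_iter (N : ℕ) (α U : Cub ℚ) :
    tw^[N] (parPt α U) = parPt α (U * Cub.rhoInv ℚ ^ N) := by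
  induction N with
  | zero => simp
  | succ N ih => rw [Function.iterate_succ_apply', ih, tw_parPt, pow_succ, mul_assoc]

theorem map_rhoInv {R S : Type*} [CommRing R] [CommRing S] (φ : R →+* S) :
    Cub.map φ (Cub.rhoInv R) = Cub.rhoInv S := by
  ext <;> simp

/-- The polynomial whose nonvanishing is required. -/
noncomputable def cAdm : R0 := Cub.nm (adm genAlpha genU)

theorem aeval_cAdm {A : Type*} [CommRing A] [Algebra ℚ A] (α U : Cub A) :
    aeval (parPt α U) cAdm = Cub.nm (adm α U) := by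
  unfold cAdm
  change ((aeval (parPt α U) : R0 →ₐ[ℚ] A) : R0 →+* A) _ = _
  rw [map_nm, map_adm]
  congr 2
  · ext <;> simp [genAlpha, parPt]
  · ext <;> simp [genU, parPt]

theorem cAdm_ne : cAdm ≠ 0 := by
  intro h
  have h1 := aeval_cAdm (A := ℚ) 0 1
  rw [h, map_zero] at h1
  have h2 : adm (0 : Cub ℚ) 1 = Cub.C (adm (0 : ℚ) 1) := by
    rw [map_adm, map_zero, map_one]
  have h3 : adm (0 : ℚ) 1 ≠ 0 := by
    norm_num [adm, NX, qa, qb, qr, pa, pb, pr, qn, qh, qg, cu, cv]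
  have h4 : Cub.nm (Cub.C (adm (0 : ℚ) 1)) = (adm (0 : ℚ) 1) ^ 3 := by
    simp [Cub.nm]
  rw [h2, h4] at h1
  exact pow_ne_zero 3 h3 h1.symm

/-- Part D: the dense sequence. -/
theorem dseq (hUp : UpStmt) : ∃ x : ℕ → Projectivization ℚ (Idx → ℚ), XI.DenseSeq x ∧
    Tendsto (fun n => chordal PX (x n)) atTop (𝓝 0) ∧
    ∀ γ : ℝ, 6 < γ → BddAbove (Set.range fun n => chordal PX (x n) ^ γ * (x n).mulHeight) := by
  obtain ⟨C0, hC0, hup⟩ := hUp
  have hδ0 : 0 < r1⁻¹ := inv_pos.mpr r1_pos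
  have hδ1 : r1⁻¹ < 1 := inv_lt_one_of_one_lt₀ one_lt_r1
  obtain ⟨y, hyinj, hy1, hy2, hy3, hy4⟩ := choose_seq (A := Par) xPt (chordal PX)
    (fun x => x.mulHeight) r1⁻¹ hδ0 hδ1 (by
      intro p
      obtain ⟨C, hC, hest⟩ := est p.1.1 p.1.2 p.adm_ne
      refine ⟨C0 * C, ?_⟩
      have hsmall : ∀ᶠ N : ℕ in atTop, C * (r1⁻¹) ^ N ≤ 1 := by
        have h1 : Tendsto (fun N : ℕ => C * (r1⁻¹) ^ N) atTop (𝓝 0) := by
          simpa using (tendsto_pow_atTop_nhds_zero_of_lt_one hδ0.le hδ1).const_mul C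
        exact h1.eventually_le_const zero_lt_one
      filter_upwards [hest, hsmall] with N hN hN1
      obtain ⟨h1, h2⟩ := hN
      obtain ⟨h3, h4⟩ := hup (zPt p N) (xQ_zPt p N) (C * (r1⁻¹) ^ N) (by positivity) hN1 h1
      refine ⟨?_, ?_, ?_, ?_⟩
      · apply chordal_pos
        obtain ⟨c, hc0, hc⟩ := rep_mk (xQ (zPt p N)) (xQ_zPt p N)
        change (Projectivization.mk ℚ (xQ (zPt p N)) (xQ_zPt p N)).rep (diagIdx 3) ≠ 0
        rw [hc]
        exact mul_ne_zero hc0 (xQ_zPt_ne p N)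
      · exact h3.trans (le_of_eq (by ring))
      · exact (Projectivization.mulHeight_pos _).le
      · refine h4.trans ?_
        rw [inv_inv]
        calc _ ≤ C0 * (C * (r1 ^ 6) ^ N) := mul_le_mul_of_nonneg_left h2 (by linarith)
          _ = _ := by ring)
  refine ⟨y, ⟨hyinj, ?_, ?_⟩, hy2, hy3⟩
  · intro n
    obtain ⟨p, N, h⟩ := hy1 n
    rw [h]
    exact xPt_mem p N
  · intro d g hg hvan
    apply mem_XI_of_isHomogeneous hg
    apply dens _ cAdm cAdm_ne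
    intro t ht
    set α : Cub ℤ := ⟨t (0, 0), t (0, 1), t (0, 2)⟩ with hα
    set μ : Cub ℤ := ⟨t (1, 0), t (1, 1), t (1, 2)⟩ with hμ
    have hpar : (fun i => (t i : ℚ)) =
        parPt (Cub.map (Int.castRingHom ℚ) α) (Cub.map (Int.castRingHom ℚ) μ) := by
      funext i
      obtain ⟨i1, i2⟩ := i
      fin_cases i1 <;> fin_cases i2 <;> simp [parPt, hα, hμ]
    have hadm : Cub.nm (adm α μ) ≠ 0 := by
      intro h0
      apply ht
      rw [hpar, ← MvPolynomial.aeval_eq_eval]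
      rw [aeval_cAdm, ← map_adm, ← map_nm, h0, map_zero]
    obtain ⟨N0, hN0⟩ := hy4 ⟨(α, μ), hadm⟩
    refine ⟨N0, fun N hN => ?_⟩
    obtain ⟨i, hi⟩ := hN0 N hN
    have h5 := hvan i
    rw [hi] at h5
    obtain ⟨c, hc0, hc⟩ := rep_mk (xQ (zPt ⟨(α, μ), hadm⟩ N)) (xQ_zPt ⟨(α, μ), hadm⟩ N)
    change eval (Projectivization.mk ℚ (xQ (zPt ⟨(α, μ), hadm⟩ N)) (xQ_zPt ⟨(α, μ), hadm⟩ N)).rep g
      = 0 at h5
    rw [hc, ← MvPolynomial.aeval_eq_eval] at h5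
    change aeval _ g = 0 at h5
    rw [aeval_mul_of_isHomogeneous hg] at h5
    have h6 : aeval (xQ (zPt ⟨(α, μ), hadm⟩ N)) g = 0 := by
      rcases mul_eq_zero.mp h5 with h | h
      · exact absurd h (pow_ne_zero d hc0)
      · exact h
    rw [hpar, tw_iter, ← MvPolynomial.aeval_eq_eval]
    change aeval _ (aeval psiX g) = 0
    rw [← AlgHom.comp_apply, comp_aeval]
    have h7 : (fun J => aeval (parPt (Cub.map (Int.castRingHom ℚ) α)
        (Cub.map (Int.castRingHom ℚ) μ * Cub.rhoInv ℚ ^ N)) (psiX J))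
        = xQ (zPt ⟨(α, μ), hadm⟩ N) := by
      funext J
      rw [aeval_psiX, zPt, xQ_Theta]
      simp only [map_mul, map_pow, map_rhoInv]
    rw [h7]
    exact h6

end MP9f7b43.D
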