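import Pool.Agent.Lib.MP_9f7b43_nt.Ifc
import Pool.Agent.Lib.MP_9f7b43_nt.D.Main

/-!
# MP_9f7b43_nt, part D: `UpStmt` from `GSize` and `GDist`, and `DSeq`
-/

namespace MP9f7b43.D

open MvPolynomial C31 Filter Topology

theorem mulHeight_int_le {ι : Type} [Fintype ι] (v : ι → ℤ) (hv : (fun i => (v i : ℚ)) ≠ 0) :
    (Projectivization.mk ℚ (fun i => (v i : ℚ)) hv).mulHeight ≤ ⨆ i, |((v i : ℚ) : ℝ)| := by
  obtain ⟨i0, hi0⟩ := Function.ne_iff.mp hv
  have : Nonempty ι := ⟨i0⟩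
  obtain ⟨w, hw, hg⟩ := Finset.extract_gcd v (Finset.univ_nonempty (α := ι))
  set g := Finset.univ.gcd v with hgdef
  have hvi : ∀ i, v i = g * w i := fun i => hw i (Finset.mem_univ i)
  have hg0 : g ≠ 0 := by
    intro h
    apply hi0
    rw [hvi, h]
    simp
  have hw0 : (fun i => (w i : ℚ)) ≠ 0 := by
    intro h
    apply hi0
    have := congrFun h i0
    simp only [Pi.zero_apply] at this
    rw [hvi]
    push_cast
    rw [this]
    simp
  have h1 : (Projectivization.mk ℚ (fun i => (v i : ℚ)) hv) =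
      Projectivization.mk ℚ (fun i => (w i : ℚ)) hw0 := by
    rw [Projectivization.mk_eq_mk_iff']
    refine ⟨(g : ℚ), ?_⟩
    funext i
    simp only [Pi.smul_apply, smul_eq_mul]
    rw [hvi]
    push_cast
    ring
  rw [h1, Projectivization.mulHeight_mk]
  have h2 := Rat.mulHeight_eq_max_abs_of_gcd_eq_one hg
  have h3 : (fun i => (w i : ℚ)) = ((↑) : ℤ → ℚ) ∘ w := rfl
  rw [h3, h2]
  obtain ⟨i, hi⟩ := exists_eq_ciSup_of_finite (f := fun i => |w i|)
  rw [← hi]
  refine le_trans ?_ (le_ciSup (f := fun i => |((v i : ℚ) : ℝ)|) (Set.finite_range _).bddAbove i)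
  rw [hvi]
  push_cast
  rw [abs_mul]
  have hg1 : (1 : ℝ) ≤ |(g : ℝ)| := by
    have : 1 ≤ |g| := Int.one_le_abs hg0
    exact_mod_cast this
  have h4 := abs_nonneg (w i : ℝ)
  nlinarith

theorem eK_map (j : Fin 3) (x : Cub ℤ) :
    eK j (Cub.map (Int.castRingHom ℚ) x) = emb (Int.castRingHom ℂ) j x := by
  simp [emb_apply]

/-- The adjoint element. -/
def adj {R : Type*} [CommRing R] (a : Cub R) : Cub R :=
  ⟨a.a0 ^ 2 - a.a1 ^ 2 + a.a2 ^ 2 + 2 * a.a0 * a.a2 - a.a1 * a.a2, a.a2 ^ 2 - a.a0 * a.a1,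
    a.a1 ^ 2 - a.a2 ^ 2 - a.a0 * a.a2⟩

theorem mul_adj {R : Type*} [CommRing R] (a : Cub R) : a * adj a = Cub.C (Cub.nm a) := by
  ext
  · simp only [adj, Cub.nm, Cub.mul_a0, Cub.C_a0]; ring
  · simp only [adj, Cub.mul_a1, Cub.C_a1]; ring
  · simp only [adj, Cub.mul_a2, Cub.C_a2]; ring

theorem exists_inv (a : Cub ℚ) (h : Cub.nm a ≠ 0) : ∃ w : Cub ℚ, a * w = 1 := by
  refine ⟨adj a * Cub.C (Cub.nm a)⁻¹, ?_⟩
  rw [← mul_assoc, mul_adj, ← map_mul, mul_inv_cancel₀ h, map_one]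

theorem pol_mul (w a b c : Cub ℚ) : pol (w * a) (w * b) (w * c) = Cub.nm w * pol a b c := by
  apply (Rat.castHom ℂ).injective
  have h1 := emb_prod (Rat.castHom ℂ) w
  have e := fun x y z => pol_eq_sum (Rat.castHom ℂ) rt rt_cube e1_rt e2_rt x y z
  rw [map_mul, e, e, ← h1]
  simp only [emb, map_mul]
  ring

theorem xJ_mul (w : Cub ℚ) (z : Fin 4 → Cub ℚ) (J : Idx) :
    xJ (fun k => w * z k) J = Cub.nm w * xJ z J := by
  simp only [xJ]
  rw [← pol_mul]
  congr 1 <;> ring

theorem xQ_eq_cast (z : Fin 4 → Cub ℤ) : xQ z = fun J => ((xJ z J : ℤ) : ℚ) := by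
  funext J
  have := map_xJ (Int.castRingHom ℚ) z J
  simp only [eq_intCast] at this
  rw [this]
  rfl

theorem tUp (hS : GSize) (hD : GDist) : UpStmt := by
  obtain ⟨c, C1, hc, hC1, hS⟩ := hS
  obtain ⟨C2, d0, hC2, hd0, -, -, hD⟩ := hD
  refine ⟨max 1 (max C1 C2), le_max_left _ _, ?_⟩
  intro z hz η hη0 hη1 h
  have hz2 : z 2 ≠ 0 := by
    intro h2
    apply hz
    have h3 : ∀ k, z k = 0 := by
      intro k
      by_cases hk : k = 2
      · rw [hk, h2]
      · have h4 := h 0 k hk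
        rw [h2, map_zero, norm_zero, mul_zero] at h4
        have h5 : emb (Int.castRingHom ℂ) 0 (z k) = 0 := norm_le_zero_iff.mp h4
        exact emb_int_injective 0 (by rw [h5, map_zero])
    rw [xQ_eq_cast]
    funext J
    simp [xJ, h3, pol, Cub.tr]
  have hpos : ∀ j, 0 < ‖emb (Int.castRingHom ℂ) j (z 2)‖ := fun j =>
    norm_pos_iff.mpr (emb_int_ne_zero j hz2)
  set z' : Fin 4 → Cub ℚ := fun k => Cub.map (Int.castRingHom ℚ) (z k) with hz'
  have hez : ∀ j k, eK j (z' k) = emb (Int.castRingHom ℂ) j (z k) := fun j k => eK_map j (z k)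
  refine ⟨?_, ?_⟩
  · -- the distance
    have hnm : Cub.nm (z' 2) ≠ 0 := by
      intro h0
      have h1 := emb_prod (Rat.castHom ℂ) (z' 2)
      rw [h0, map_zero] at h1
      have h2 : ∀ j, emb (Rat.castHom ℂ) j (z' 2) ≠ 0 := by
        intro j
        have := hez j 2
        rw [show emb (Rat.castHom ℂ) j (z' 2) = eK j (z' 2) from rfl, this]
        exact emb_int_ne_zero j hz2
      exact mul_ne_zero (mul_ne_zero (h2 0) (h2 1)) (h2 2) h1
    obtain ⟨w, hw⟩ := exists_inv (z' 2) hnm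
    have hxw : xJ (fun k => w * z' k) = fun J => Cub.nm w * xQ z J := by
      funext J
      exact xJ_mul w z' J
    have hnw : Cub.nm w ≠ 0 := by
      intro h0
      have h1 := mul_adj w
      rw [h0, map_zero] at h1
      have h2 : z' 2 * w * adj w = 0 := by rw [mul_assoc, h1, mul_zero]
      rw [hw, one_mul] at h2
      have h3 : w = 0 := by
        have h4 := emb_prod (Rat.castHom ℂ) w
        rw [h0, map_zero] at h4
        by_contra hne
        exact mul_ne_zero (mul_ne_zero (emb_rat_ne_zero 0 hne) (emb_rat_ne_zero 1 hne))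
          (emb_rat_ne_zero 2 hne) h4
      rw [h3, mul_zero] at hw
      have := congrArg Cub.a0 hw
      simp at this
    have hne : xJ (fun k => w * z' k) ≠ 0 := by
      intro h0
      apply hz
      funext J
      have h1 := congrFun h0 J
      rw [hxw] at h1
      rcases mul_eq_zero.mp h1 with h2 | h2
      · exact absurd h2 hnw
      · exact h2
    have hmk : Projectivization.mk ℚ (xQ z) hz = Projectivization.mk ℚ _ hne := by
      rw [Projectivization.mk_eq_mk_iff']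
      refine ⟨(Cub.nm w)⁻¹, ?_⟩
      rw [hxw]
      funext J
      simp only [Pi.smul_apply, smul_eq_mul]
      rw [← mul_assoc, inv_mul_cancel₀ hnw, one_mul]
    rw [hmk]
    have h1 : w * z' 2 = 1 := by rw [mul_comm]; exact hw
    have h2 := hD (fun k => w * z' k) hne h1 η hη0 hη1 (by
      intro j k hk
      rw [map_mul, norm_mul, hez]
      have h3 : eK j w * eK j (z' 2) = 1 := by rw [← map_mul, h1, map_one]
      have h4 : ‖eK j w‖ * ‖emb (Int.castRingHom ℂ) j (z 2)‖ = 1 := by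
        rw [← hez, ← norm_mul, h3, norm_one]
      calc ‖eK j w‖ * ‖emb (Int.castRingHom ℂ) j (z k)‖
          ≤ ‖eK j w‖ * (η * ‖emb (Int.castRingHom ℂ) j (z 2)‖) :=
            mul_le_mul_of_nonneg_left (h j k hk) (norm_nonneg _)
        _ = η * (‖eK j w‖ * ‖emb (Int.castRingHom ℂ) j (z 2)‖) := by ring
        _ = η := by rw [h4, mul_one])
    exact h2.trans (mul_le_mul_of_nonneg_right ((le_max_right _ _).trans (le_max_right _ _)) hη0)
  · -- the height
    have hcast := xQ_eq_cast z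
    have hv : (fun J => ((xJ z J : ℤ) : ℚ)) ≠ 0 := by rw [← hcast]; exact hz
    have h1 := mulHeight_int_le (fun J => xJ z J) hv
    have h2 : Projectivization.mk ℚ (xQ z) hz =
        Projectivization.mk ℚ (fun J => ((xJ z J : ℤ) : ℚ)) hv := by
      congr 1
    rw [h2]
    refine h1.trans ?_
    have h3 := (hS z').2
    have h4 : ∀ J, ((xJ z' J : ℚ) : ℝ) = (((xJ z J : ℤ) : ℚ) : ℝ) := by
      intro J
      have := congrFun hcast J
      exact_mod_cast this
    simp only [h4] at h3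
    refine h3.trans ?_
    have h5 : ∀ j, nrm z' j ≤ ‖emb (Int.castRingHom ℂ) j (z 2)‖ := by
      intro j
      apply ciSup_le
      intro k
      rw [hez]
      by_cases hk : k = 2
      · rw [hk]
      · exact (h j k hk).trans (mul_le_of_le_one_left (norm_nonneg _) hη1)
    have h6 : ∏ j, nrm z' j ≤ ∏ j : Fin 3, ‖emb (Int.castRingHom ℂ) j (z 2)‖ := by
      apply Finset.prod_le_prod
      · intro j _
        exact Real.iSup_nonneg fun _ => norm_nonneg _
      · intro j _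
        exact h5 j
    have h7 : 0 ≤ ∏ j : Fin 3, ‖emb (Int.castRingHom ℂ) j (z 2)‖ :=
      Finset.prod_nonneg fun _ _ => norm_nonneg _
    calc C1 * ∏ j, nrm z' j ≤ C1 * ∏ j : Fin 3, ‖emb (Int.castRingHom ℂ) j (z 2)‖ :=
          mul_le_mul_of_nonneg_left h6 hC1.le
      _ ≤ _ := mul_le_mul_of_nonneg_right ((le_max_left _ _).trans (le_max_right _ _)) h7

/-- Part D: `GSize → GDist → DSeq`. -/
theorem tDSeq (hS : GSize) (hD : GDist) : DSeq := by
  obtain ⟨x, h1, h2, h3⟩ := dseq (tUp hS hD)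
  refine ⟨x, h1, h2, fun γ hγ => ?_⟩
  obtain ⟨C, hC⟩ := h3 γ hγ
  exact ⟨C, fun n => hC ⟨n, rfl⟩⟩

end MP9f7b43.D
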